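import Mathlib
import Pool.Agent.Zk9.PP.Alg
import Pool.Agent.Zk53.PA.Poly

/-!
# The general linear groups over algebraic fields
-/

set_option autoImplicit false

open MvPolynomial

namespace Pool.Agent.Zk53.PA

open Pool.Agent.H922R2 (GA AG Wsub mem_Wsub mem_AG_of)
open Pool.Agent.Y110.FJ (ClosedE)

section

variable {k : Type} [Field k]

/-- the endomorphism with a given linear part -/
noncomputable def Ee (g : Matrix (Fin 2) (Fin 2) k) :
    MvPolynomial (Fin 2) k →ₐ[k] MvPolynomial (Fin 2) k :=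
  aeval (fun j => C (g 0 j) * X 0 + C (g 1 j) * X 1)

theorem Ee_X (g : Matrix (Fin 2) (Fin 2) k) (j : Fin 2) :
    Ee g (X j) = C (g 0 j) * X 0 + C (g 1 j) * X 1 := by simp [Ee]

theorem Ee_C (g : Matrix (Fin 2) (Fin 2) k) (c : k) : Ee g (C c) = C c := (Ee g).commutes c

theorem Ee_mul (g h : Matrix (Fin 2) (Fin 2) k) : (Ee g).comp (Ee h) = Ee (g * h) := by
  apply MvPolynomial.algHom_ext
  intro j
  show Ee g (Ee h (X j)) = _
  rw [Ee_X, Ee_X, map_add, map_mul, map_mul, Ee_C, Ee_C, Ee_X, Ee_X, Matrix.mul_apply,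
    Matrix.mul_apply, Fin.sum_univ_two, Fin.sum_univ_two]
  simp only [C_add, C_mul]
  ring

theorem Ee_one : Ee (1 : Matrix (Fin 2) (Fin 2) k) = AlgHom.id k _ := by
  apply MvPolynomial.algHom_ext
  intro j
  rw [Ee_X]
  obtain rfl | rfl : j = 0 ∨ j = 1 := by fin_cases j <;> simp
  · rw [Matrix.one_apply_eq, Matrix.one_apply_ne (by decide), C_0, C_1]
    simp
  · rw [Matrix.one_apply_eq, Matrix.one_apply_ne (by decide), C_0, C_1]
    simp

/-- the linear automorphisms -/
noncomputable def linA (k : Type) [Field k] : (Matrix (Fin 2) (Fin 2) k)ˣ →* GA k where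
  toFun g := AlgEquiv.ofAlgHom (Ee g.val) (Ee g.inv)
    (by rw [Ee_mul, g.val_inv, Ee_one]) (by rw [Ee_mul, g.inv_val, Ee_one])
  map_one' := by
    apply AlgEquiv.coe_toAlgHom_injective
    exact Ee_one
  map_mul' g h := by
    apply AlgEquiv.coe_toAlgHom_injective
    exact (Ee_mul g.val h.val).symm

theorem linA_X (g : (Matrix (Fin 2) (Fin 2) k)ˣ) (j : Fin 2) :
    linA k g (X j) = C (g.val 0 j) * X 0 + C (g.val 1 j) * X 1 := Ee_X _ j

theorem linA_injective : Function.Injective (linA k) := by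
  intro g h e
  apply Units.ext
  have h1 : ∀ j, (C (g.val 0 j) * X 0 + C (g.val 1 j) * X 1 : MvPolynomial (Fin 2) k) =
      C (h.val 0 j) * X 0 + C (h.val 1 j) * X 1 := by
    intro j
    rw [← linA_X, ← linA_X, e]
  have h2 : ∀ (a b : k) (l : Fin 2), coeff (Finsupp.single l 1)
      (C a * X 0 + C b * X 1 : MvPolynomial (Fin 2) k) = ![a, b] l := by
    intro a b l
    rw [coeff_add, coeff_C_mul, coeff_C_mul, cX, cX]
    fin_cases l <;> simp
  ext l j
  have h3 := congrArg (coeff (Finsupp.single l 1)) (h1 j)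
  rw [h2, h2] at h3
  fin_cases l <;> simpa using h3

theorem linA_mem (g : (Matrix (Fin 2) (Fin 2) k)ˣ) : linA k g ∈ AG k := by
  apply mem_AG_of
  · rw [mem_Wsub]
    exact ⟨g.val 0 0, g.val 1 0, 0, by rw [linA_X, C_0, add_zero]⟩
  · rw [mem_Wsub]
    exact ⟨g.val 0 1, g.val 1 1, 0, by rw [linA_X, C_0, add_zero]⟩

end

/-- `GL_2` over an algebraic extension of the field of the rational numbers -/
theorem C_G2_alg {Cl : ∀ (G : Type) [Group G], Prop} (hC : ClosedE Cl)
    (hL : ∀ m : ℕ, Cl (Matrix.GeneralLinearGroup (Fin m) ℚ))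
    (k : Type) [Field k] [Algebra ℚ k] [Algebra.IsAlgebraic ℚ k] :
    Cl ((Matrix (Fin 2) (Fin 2) k)ˣ) := by
  have h1 : Cl (AG k) := Pool.Agent.Zk9.PP.C_AG_alg hC hL
  refine hC.base.of_injective _ _ ((linA k).codRestrict (AG k) linA_mem) ?_ h1
  intro g h e
  exact linA_injective (congrArg Subtype.val e)

end Pool.Agent.Zk53.PA
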